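import Pool.Agent.H29.AVS.FDN
import Pool.Agent.H8.AV3.Stmts4

/-!
# EXC3: points on curves with a very divisible discriminant
-/

set_option autoImplicit false

open Polynomial Matrix

namespace Pool.Agent.H3.AV3B

open Pool.AVR Pool.AV3 Pool.AVS.FDN

namespace EXC3

variable {F : Type} [Field F]

/-- A cubic polynomial with unit leading coefficient has zeros modulo `P ^ N` in at most three
classes modulo `P ^ r`. -/
theorem classes4 {P : F[X]} (hP : Irreducible P) (h2 : (2 : F) ≠ 0) {N r : ℕ}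
    (hN : 3 * r ≤ N) (hr : 1 ≤ r) {a c b₀ b₁ b₂ b₃ : F[X]}
    (h₀ : P ^ N ∣ disc a b₀ c) (h₁ : P ^ N ∣ disc a b₁ c)
    (h₂ : P ^ N ∣ disc a b₂ c) (h₃ : P ^ N ∣ disc a b₃ c)
    (k01 : ¬ P ^ r ∣ b₀ - b₁) (k02 : ¬ P ^ r ∣ b₀ - b₂) (k03 : ¬ P ^ r ∣ b₀ - b₃)
    (k12 : ¬ P ^ r ∣ b₁ - b₂) (k13 : ¬ P ^ r ∣ b₁ - b₃) (k23 : ¬ P ^ r ∣ b₂ - b₃) : False := by
  have key1 : ∀ x y : F[X], P ^ N ∣ disc a x c → P ^ N ∣ disc a y c → ¬ P ^ r ∣ x - y →
      P ^ (N + 1 - r) ∣ -4 * (x ^ 2 + x * y + y ^ 2) + a ^ 2 * (x + y) + 18 * a * c := by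
    intro x y hx hy hxy
    refine pp hP ?_ hxy
    have : (x - y) * (-4 * (x ^ 2 + x * y + y ^ 2) + a ^ 2 * (x + y) + 18 * a * c) =
        disc a x c - disc a y c := by
      unfold disc
      ring
    rw [this]
    exact dvd_sub hx hy
  have key2 : ∀ x y z : F[X], P ^ N ∣ disc a x c → P ^ N ∣ disc a y c → P ^ N ∣ disc a z c →
      ¬ P ^ r ∣ x - y → ¬ P ^ r ∣ x - z → ¬ P ^ r ∣ y - z →
      P ^ (N + 1 - r + 1 - r - 1 + 1) ∣ -4 * (x + y + z) + a ^ 2 := by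
    intro x y z hx hy hz hxy hxz hyz
    have e1 := key1 x y hx hy hxy
    have e2 := key1 x z hx hz hxz
    have e3 : P ^ (N + 1 - r) ∣ (y - z) * (-4 * (x + y + z) + a ^ 2) := by
      have : (y - z) * (-4 * (x + y + z) + a ^ 2) =
          (-4 * (x ^ 2 + x * y + y ^ 2) + a ^ 2 * (x + y) + 18 * a * c) -
          (-4 * (x ^ 2 + x * z + z ^ 2) + a ^ 2 * (x + z) + 18 * a * c) := by ring
      rw [this]
      exact dvd_sub e1 e2
    have e4 := pp hP e3 hyz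
    exact (pow_dvd_pow P (by omega)).trans e4
  have f1 := key2 b₀ b₁ b₂ h₀ h₁ h₂ k01 k02 k12
  have f2 := key2 b₀ b₁ b₃ h₀ h₁ h₃ k01 k03 k13
  have f3 : P ^ (N + 1 - r + 1 - r - 1 + 1) ∣ (b₂ - b₃) * (C (-4 : F)) := by
    have h4 : (C (-4 : F) : F[X]) = -4 := by
      rw [map_neg]
      exact congrArg Neg.neg (map_ofNat C 4)
    have : (b₂ - b₃) * (C (-4 : F)) =
        (-4 * (b₀ + b₁ + b₂) + a ^ 2) - (-4 * (b₀ + b₁ + b₃) + a ^ 2) := by
      rw [h4]
      ring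
    rw [this]
    exact dvd_sub f1 f2
  have h4 : (-4 : F) ≠ 0 := by
    have : (-4 : F) = -(2 * 2) := by norm_num
    rw [this]
    exact neg_ne_zero.2 (mul_ne_zero h2 h2)
  have hu : IsUnit (C (-4 : F) : F[X]) := isUnit_C.2 (isUnit_iff_ne_zero.2 h4)
  have f4 : P ^ (N + 1 - r + 1 - r - 1 + 1) ∣ b₂ - b₃ := (hu.dvd_mul_right).1 f3
  exact k23 ((pow_dvd_pow P (by omega)).trans f4)

/-- The zeros in `b` of the discriminant. -/
theorem fibb [Finite F] {P : F[X]} (hP : Irreducible P) (h2 : (2 : F) ≠ 0) {N r : ℕ}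
    (hN : 3 * r ≤ N) (hr : 1 ≤ r) (a c : AdjoinRoot (P ^ N)) :
    {b : AdjoinRoot (P ^ N) | disc a b c = 0}.ncard ≤
      3 * Nat.card F ^ ((N - r) * P.natDegree) := by
  obtain ⟨f2, -⟩ := EQB_adj F (P ^ N) (pow_ne_zero _ hP.ne_zero)
  obtain ⟨-, cI⟩ := card_I (F := F) hP.ne_zero (show r ≤ N by omega)
  have hrN : r ≤ N := by omega
  have hcl : ∀ c₀ : AdjoinRoot (P ^ N), {c : AdjoinRoot (P ^ N) | c₀ - c ∈ I P N r}.ncard ≤
      Nat.card F ^ ((N - r) * P.natDegree) := by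
    intro c₀
    have : {c : AdjoinRoot (P ^ N) | c₀ - c ∈ I P N r} = (fun x => c₀ - x) '' (I P N r) := by
      ext c
      constructor
      · intro hc
        exact ⟨c₀ - c, hc, by simp⟩
      · rintro ⟨x, hx, rfl⟩
        simpa using hx
    rw [this]
    exact (Set.ncard_image_le (Set.toFinite _)).trans cI
  set C₀ := {b : AdjoinRoot (P ^ N) | disc a b c = 0} with hC₀
  have hd : ∀ A B D : F[X], disc (AdjoinRoot.mk (P ^ N) A) (AdjoinRoot.mk (P ^ N) B)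
      (AdjoinRoot.mk (P ^ N) D) = 0 → P ^ N ∣ disc A B D := by
    intro A B D h
    have : AdjoinRoot.mk (P ^ N) (disc A B D) = 0 := by
      rw [← h]
      unfold disc
      simp only [map_sub, map_add, map_mul, map_pow, map_ofNat]
    exact AdjoinRoot.mk_eq_zero.1 this
  have hcl4 : ∀ b₀ ∈ C₀, ∀ b₁ ∈ C₀, ∀ b₂ ∈ C₀, ∀ b₃ ∈ C₀, b₀ - b₁ ∉ I P N r →
      b₀ - b₂ ∉ I P N r → b₁ - b₂ ∉ I P N r →
      b₀ - b₃ ∈ I P N r ∨ b₁ - b₃ ∈ I P N r ∨ b₂ - b₃ ∈ I P N r := by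
    intro b₀ h₀ b₁ h₁ b₂ h₂ b₃ h₃ k01 k02 k12
    by_contra hcon
    push Not at hcon
    obtain ⟨k03, k13, k23⟩ := hcon
    obtain ⟨A, rfl⟩ := AdjoinRoot.mk_surjective a
    obtain ⟨D, rfl⟩ := AdjoinRoot.mk_surjective c
    obtain ⟨B₀, rfl⟩ := AdjoinRoot.mk_surjective b₀
    obtain ⟨B₁, rfl⟩ := AdjoinRoot.mk_surjective b₁
    obtain ⟨B₂, rfl⟩ := AdjoinRoot.mk_surjective b₂
    obtain ⟨B₃, rfl⟩ := AdjoinRoot.mk_surjective b₃
    rw [← map_sub, mem_I hrN] at k01 k02 k12 k03 k13 k23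
    exact classes4 hP h2 hN hr (hd _ _ _ h₀) (hd _ _ _ h₁) (hd _ _ _ h₂) (hd _ _ _ h₃)
      k01 k02 k03 k12 k13 k23
  by_cases hne : C₀.Nonempty
  · obtain ⟨b₀, h₀⟩ := hne
    by_cases hne1 : ∃ b₁ ∈ C₀, b₀ - b₁ ∉ I P N r
    · obtain ⟨b₁, h₁, k01⟩ := hne1
      by_cases hne2 : ∃ b₂ ∈ C₀, b₀ - b₂ ∉ I P N r ∧ b₁ - b₂ ∉ I P N r
      · obtain ⟨b₂, h₂, k02, k12⟩ := hne2
        have hsub : C₀ ⊆ ({b | b₀ - b ∈ I P N r} ∪ {b | b₁ - b ∈ I P N r}) ∪
            {b | b₂ - b ∈ I P N r} := by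
          intro b₃ h₃
          rcases hcl4 b₀ h₀ b₁ h₁ b₂ h₂ b₃ h₃ k01 k02 k12 with h | h | h
          · exact Or.inl (Or.inl h)
          · exact Or.inl (Or.inr h)
          · exact Or.inr h
        have e0 := hcl b₀
        have e1 := hcl b₁
        have e2 := hcl b₂
        have e3 := Set.ncard_union_le {b | b₀ - b ∈ I P N r} {b | b₁ - b ∈ I P N r}
        have e4 := Set.ncard_union_le ({b | b₀ - b ∈ I P N r} ∪ {b | b₁ - b ∈ I P N r})
          {b | b₂ - b ∈ I P N r}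
        have e5 := Set.ncard_le_ncard hsub (Set.toFinite _)
        omega
      · push Not at hne2
        have hsub : C₀ ⊆ {b | b₀ - b ∈ I P N r} ∪ {b | b₁ - b ∈ I P N r} := by
          intro b h
          by_cases hb : b₀ - b ∈ I P N r
          · exact Or.inl hb
          · exact Or.inr (hne2 b h hb)
        have e0 := hcl b₀
        have e1 := hcl b₁
        have e3 := Set.ncard_union_le {b | b₀ - b ∈ I P N r} {b | b₁ - b ∈ I P N r}
        have e5 := Set.ncard_le_ncard hsub (Set.toFinite _)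
        omega
    · push Not at hne1
      have hsub : C₀ ⊆ {b | b₀ - b ∈ I P N r} := fun b h => hne1 b h
      have e0 := hcl b₀
      have e5 := Set.ncard_le_ncard hsub (Set.toFinite _)
      omega
  · rw [Set.not_nonempty_iff_eq_empty] at hne
    rw [hne]
    simp

end EXC3

open EXC3 in
theorem exc3_thm : Pool.AV3.EXC3Stmt := by
  intro F _ _ h2 P hPm hP ε hε
  classical
  have hq2 : 2 ≤ Nat.card F := Finite.one_lt_card
  have hdeg : 1 ≤ P.natDegree := hP.natDegree_pos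
  obtain ⟨r₀, hr₀⟩ := exists_pow_lt_of_lt_one (show (0 : ℝ) < ε / 6 by positivity)
    (show (1 / 2 : ℝ) < 1 by norm_num)
  set r := r₀ + 1 with hr
  refine ⟨3 * r, fun N hN => ?_⟩
  set q := Nat.card F with hq
  set d := P.natDegree with hd
  obtain ⟨f2, c2⟩ := EQB_adj F (P ^ N) (pow_ne_zero _ hP.ne_zero)
  rw [natDegree_pow] at c2
  have : Fintype (AdjoinRoot (P ^ N)) := Fintype.ofFinite _
  have hfib := fun a c => fibb hP h2 hN (show 1 ≤ r by omega) (N := N) (r := r) a c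
  set R := AdjoinRoot (P ^ N) with hR
  have hcR : Fintype.card R = q ^ (N * d) := by
    rw [← Nat.card_eq_fintype_card, c2]
  set S : Finset (R × R × R) := Finset.univ.filter fun t => dsc t = 0 with hS
  have hSn : {f : R × R × R | dsc f = 0} = (S : Set (R × R × R)) := by
    ext t
    simp [hS]
  rw [hSn, finsum_mem_coe_finset]
  -- the number of cubics
  have hSc : S.card ≤ 3 * q ^ ((N - r) * d) * (S.image fun t => (t.1, t.2.2)).card := by
    apply Finset.card_le_mul_card_image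
    intro ac hac
    obtain ⟨t, ht, rfl⟩ := Finset.mem_image.1 hac
    refine le_trans ?_ (hfib t.1 t.2.2)
    rw [← Set.ncard_coe_finset]
    apply Set.ncard_le_ncard_of_injOn (fun s : R × R × R => s.2.1)
    · intro s hs
      obtain ⟨hs1, hs2⟩ := Finset.mem_filter.1 (Finset.mem_coe.1 hs)
      obtain ⟨-, hs4⟩ := Finset.mem_filter.1 hs1
      simp only [Prod.mk.injEq] at hs2
      rw [dsc, hs2.1, hs2.2] at hs4
      exact hs4
    · intro s hs s' hs' hss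
      obtain ⟨-, hs2⟩ := Finset.mem_filter.1 (Finset.mem_coe.1 hs)
      obtain ⟨-, hs2'⟩ := Finset.mem_filter.1 (Finset.mem_coe.1 hs')
      simp only [Prod.mk.injEq] at hs2 hs2'
      obtain ⟨s1, s2, s3⟩ := s
      obtain ⟨s1', s2', s3'⟩ := s'
      simp only at hs2 hs2' hss
      rw [hs2.1, hs2.2, hs2'.1, hs2'.2, hss]
  have hSi : (S.image fun t => (t.1, t.2.2)).card ≤ q ^ (N * d) * q ^ (N * d) := by
    refine (Finset.card_le_univ _).trans ?_
    rw [Fintype.card_prod, hcR]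
  -- the number of pairs
  set W : Finset ((R × R × R) × (R × R)) := Finset.univ.filter fun w => dsc w.1 = 0 ∧
    w.2.2 ^ 2 = w.2.1 ^ 3 + w.1.1 * w.2.1 ^ 2 + w.1.2.1 * w.2.1 + w.1.2.2 with hW
  have hWS : ∑ f ∈ S, nET f ≤ W.card := by
    have h1 : W.card = ∑ f ∈ S, (W.filter fun w => w.1 = f).card := by
      apply Finset.card_eq_sum_card_fiberwise
      intro w hw
      obtain ⟨-, h3, -⟩ := Finset.mem_filter.1 (Finset.mem_coe.1 hw)
      exact Finset.mem_coe.2 (Finset.mem_filter.2 ⟨Finset.mem_univ _, h3⟩)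
    rw [h1]
    refine Finset.sum_le_sum fun f hf => ?_
    obtain ⟨-, hf2⟩ := Finset.mem_filter.1 hf
    rw [← Set.ncard_coe_finset]
    apply Set.ncard_le_ncard_of_injOn (fun p : R × R => (f, p))
    · intro p hp
      exact Finset.mem_coe.2 (Finset.mem_filter.2 ⟨Finset.mem_filter.2
        ⟨Finset.mem_univ _, hf2, hp⟩, rfl⟩)
    · intro p _ p' _ hpp
      exact (Prod.mk.inj hpp).2
  have hWc : W.card ≤ 3 * q ^ ((N - r) * d) * (W.image fun w => (w.1.1, w.2.1, w.2.2)).card := by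
    apply Finset.card_le_mul_card_image
    intro axy haxy
    obtain ⟨t, ht, rfl⟩ := Finset.mem_image.1 haxy
    refine le_trans ?_ (hfib (t.1.1 + 3 * t.2.1) (t.2.2 ^ 2))
    rw [← Set.ncard_coe_finset]
    apply Set.ncard_le_ncard_of_injOn
      (fun s : (R × R × R) × (R × R) => s.1.2.1 + 2 * t.1.1 * t.2.1 + 3 * t.2.1 ^ 2)
    · intro s hs
      obtain ⟨hs1, hs2⟩ := Finset.mem_filter.1 (Finset.mem_coe.1 hs)
      obtain ⟨-, hs3, hs4⟩ := Finset.mem_filter.1 hs1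
      simp only [Prod.mk.injEq] at hs2
      obtain ⟨e1, e2, e3⟩ := hs2
      rw [e1, e2, e3] at hs4
      have h5 : dsc (sh t.2.1 s.1) = 0 := by rw [dsc_sh, hs3]
      have h6 : sh t.2.1 s.1 = (t.1.1 + 3 * t.2.1, s.1.2.1 + 2 * t.1.1 * t.2.1 + 3 * t.2.1 ^ 2,
          t.2.2 ^ 2) := by
        rw [hs4]
        simp only [sh, e1, Prod.mk.injEq]
        refine ⟨trivial, trivial, by ring⟩
      rw [h6] at h5
      exact h5
    · intro s hs s' hs' hss
      obtain ⟨hs1, hs2⟩ := Finset.mem_filter.1 (Finset.mem_coe.1 hs)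
      obtain ⟨hs1', hs2'⟩ := Finset.mem_filter.1 (Finset.mem_coe.1 hs')
      obtain ⟨-, -, hs4⟩ := Finset.mem_filter.1 hs1
      obtain ⟨-, -, hs4'⟩ := Finset.mem_filter.1 hs1'
      obtain ⟨⟨s1, s2, s3⟩, s4, s5⟩ := s
      obtain ⟨⟨s1', s2', s3'⟩, s4', s5'⟩ := s'
      simp only [Prod.mk.injEq] at hs2 hs2' hss hs4 hs4'
      obtain ⟨e1, e2, e3⟩ := hs2
      obtain ⟨e1', e2', e3'⟩ := hs2'
      have e4 : s2 = s2' := by
        have := add_right_cancel (add_right_cancel hss)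
        exact this
      rw [e1, e2, e3, e4] at hs4
      rw [e1', e2', e3'] at hs4'
      have e5 : s3 = s3' := add_left_cancel (hs4.symm.trans hs4')
      rw [e1, e1', e2, e2', e3, e3', e4, e5]
  have hWi : (W.image fun w => (w.1.1, w.2.1, w.2.2)).card ≤
      q ^ (N * d) * (q ^ (N * d) * q ^ (N * d)) := by
    refine (Finset.card_le_univ _).trans ?_
    rw [Fintype.card_prod, Fintype.card_prod, hcR]
  set κ := q ^ d with hκ
  set κr := q ^ ((N - r) * d) with hκr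
  set κN := q ^ (N * d) with hκN
  have hκr' : κ ^ r * κr = κN := by
    rw [hκ, hκr, hκN, ← pow_mul, ← pow_add]
    congr 1
    have : N = r + (N - r) := by omega
    calc d * r + (N - r) * d = (r + (N - r)) * d := by ring
      _ = N * d := by rw [← this]
  have hκN4 : (q : ℝ) ^ (4 * (N * d)) = (κN : ℝ) ^ 4 := by
    rw [hκN]
    push_cast
    rw [← pow_mul, mul_comm 4]
  rw [hκN4]
  have h8 : S.card ≤ 3 * κr * (κN * κN) := hSc.trans (Nat.mul_le_mul_left _ hSi)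
  have h9 : W.card ≤ 3 * κr * (κN * (κN * κN)) := hWc.trans (Nat.mul_le_mul_left _ hWi)
  have hκ2 : 2 ≤ κ := by
    calc 2 ≤ q := hq2
      _ = q ^ 1 := (pow_one q).symm
      _ ≤ q ^ d := Nat.pow_le_pow_right (by omega) hdeg
  have h10 : ∑ i ∈ S, (κ * nET i + κN) ≤ 6 * κ * κr * κN ^ 3 := by
    rw [Finset.sum_add_distrib, ← Finset.mul_sum, Finset.sum_const, smul_eq_mul]
    have h11 : κ * ∑ f ∈ S, nET f ≤ κ * (3 * κr * (κN * (κN * κN))) :=
      Nat.mul_le_mul_left _ (hWS.trans h9)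
    have h12 : S.card * κN ≤ 3 * κr * (κN * κN) * κN := Nat.mul_le_mul_right _ h8
    have h13 : 3 * κr * (κN * κN) * κN ≤ κ * (3 * κr * (κN * (κN * κN))) := by
      have : 3 * κr * (κN * κN) * κN = 1 * (3 * κr * (κN * (κN * κN))) := by ring
      rw [this]
      exact Nat.mul_le_mul_right _ (by omega)
    calc κ * ∑ f ∈ S, nET f + S.card * κN ≤ κ * (3 * κr * (κN * (κN * κN))) +
        κ * (3 * κr * (κN * (κN * κN))) := add_le_add h11 (h12.trans h13)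
      _ = 6 * κ * κr * κN ^ 3 := by ring
  have h14 : ((∑ i ∈ S, (κ * nET i + κN) : ℕ) : ℝ) ≤ ((6 * κ * κr * κN ^ 3 : ℕ) : ℝ) :=
    Nat.cast_le.2 h10
  refine h14.trans ?_
  have h15 : (6 : ℝ) ≤ ε * (κ : ℝ) ^ r₀ := by
    have h12 : (1 / 2 : ℝ) ^ r₀ * 2 ^ r₀ = 1 := by
      rw [← mul_pow]
      norm_num
    have h13 : (1 : ℝ) ≤ ε / 6 * 2 ^ r₀ := by
      rw [← h12]
      exact mul_le_mul_of_nonneg_right hr₀.le (by positivity)
    have h14 : ε / 6 * 2 ^ r₀ ≤ ε / 6 * (κ : ℝ) ^ r₀ := by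
      apply mul_le_mul_of_nonneg_left _ (by positivity)
      apply pow_le_pow_left₀ (by norm_num)
      exact_mod_cast hκ2
    linarith
  have h16 : (κN : ℝ) = (κ : ℝ) ^ r₀ * κ * κr := by
    rw [← hκr', hr]
    push_cast
    ring
  push_cast
  calc (6 : ℝ) * κ * κr * (κN : ℝ) ^ 3 ≤ (ε * (κ : ℝ) ^ r₀) * κ * κr * (κN : ℝ) ^ 3 := by
        have : (0 : ℝ) ≤ (κ : ℝ) * κr * (κN : ℝ) ^ 3 := by positivity
        nlinarith
    _ = ε * (((κ : ℝ) ^ r₀ * κ * κr) * (κN : ℝ) ^ 3) := by ring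
    _ = ε * (κN : ℝ) ^ 4 := by rw [← h16]; ring

end Pool.Agent.H3.AV3B
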